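import Mathlib

set_option autoImplicit false

open Set Topology MeasureTheory Filter

namespace Pool.Agent.Results.MP_6f9abf_an.SigmaStableContinuity

section ring

variable {Ω : Type*} [MeasurableSpace Ω] {P : Measure Ω} {𝕜 : Type*} [RCLike 𝕜]

/-- The algebra structure of `L⁰(𝕜)`: Mathlib's addition and multiplication of classes of
functions make it a commutative ring. -/
noncomputable instance instCommRingL0 : CommRing (Ω →ₘ[P] 𝕜) :=
  { (inferInstance : AddCommGroup (Ω →ₘ[P] 𝕜)), (inferInstance : CommMonoid (Ω →ₘ[P] 𝕜)) with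
    left_distrib := fun a b c => by
      apply AEEqFun.ext
      filter_upwards [AEEqFun.coeFn_mul a (b + c), AEEqFun.coeFn_add b c,
        AEEqFun.coeFn_add (a * b) (a * c), AEEqFun.coeFn_mul a b, AEEqFun.coeFn_mul a c]
        with ω h1 h2 h3 h4 h5
      rw [h1, h3, Pi.mul_apply, Pi.add_apply, h2, h4, h5, Pi.mul_apply, Pi.mul_apply,
        Pi.add_apply, mul_add]
    right_distrib := fun a b c => by
      apply AEEqFun.ext
      filter_upwards [AEEqFun.coeFn_mul (a + b) c, AEEqFun.coeFn_add a b,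
        AEEqFun.coeFn_add (a * c) (b * c), AEEqFun.coeFn_mul a c, AEEqFun.coeFn_mul b c]
        with ω h1 h2 h3 h4 h5
      rw [h1, h3, Pi.mul_apply, Pi.add_apply, h2, h4, h5, Pi.mul_apply, Pi.mul_apply,
        Pi.add_apply, add_mul]
    zero_mul := fun a => by
      apply AEEqFun.ext
      filter_upwards [AEEqFun.coeFn_mul 0 a, AEEqFun.coeFn_zero (μ := P) (β := 𝕜)] with ω h1 h2
      rw [h1, Pi.mul_apply, h2, Pi.zero_apply, zero_mul]
    mul_zero := fun a => by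
      apply AEEqFun.ext
      filter_upwards [AEEqFun.coeFn_mul a 0, AEEqFun.coeFn_zero (μ := P) (β := 𝕜)] with ω h1 h2
      rw [h1, Pi.mul_apply, h2, Pi.zero_apply, mul_zero] }

end ring

section defs

variable {Ω : Type*} [MeasurableSpace Ω] (P : Measure Ω) (𝕜 : Type*) [RCLike 𝕜]

/-- The class of the indicator of a measurable set, in `L⁰(𝕜)`. -/
noncomputable def ind (A : Set Ω) (hA : MeasurableSet A) : Ω →ₘ[P] 𝕜 :=
  AEEqFun.mk (A.indicator fun _ => (1 : 𝕜)) (aestronglyMeasurable_const.indicator hA)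

/-- The absolute value `|ξ|` of an element of `L⁰(𝕜)`, as an element of `L⁰(ℝ)`. -/
noncomputable def absL (ξ : Ω →ₘ[P] 𝕜) : Ω →ₘ[P] ℝ := AEEqFun.comp norm continuous_norm ξ

/-- `L⁰`-seminorms on an `L⁰`-module. -/
structure LSeminorm (E : Type*) [AddCommGroup E] [Module (Ω →ₘ[P] 𝕜) E] where
  toFun : E → Ω →ₘ[P] ℝ
  nonneg' : ∀ x, 0 ≤ toFun x
  smul' : ∀ (ξ : Ω →ₘ[P] 𝕜) (x : E), toFun (ξ • x) = absL P 𝕜 ξ * toFun x
  add' : ∀ x y, toFun (x + y) ≤ toFun x + toFun y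

/-- `A` is a countable measurable partition of `Ω` (some pieces may be empty). -/
structure IsPart (A : ℕ → Set Ω) : Prop where
  meas : ∀ n, MeasurableSet (A n)
  disj : Pairwise (Function.onFun Disjoint A)
  union : ⋃ n, A n = univ

variable {P 𝕜}
variable {E : Type*} [AddCommGroup E] [Module (Ω →ₘ[P] 𝕜) E]

/-- `‖x‖_Q`, the maximum of `‖x‖` over the finite family `Q` (and `0` if `Q` is empty), as a
function on `Ω`. -/
noncomputable def qnorm (Q : Finset (LSeminorm P 𝕜 E)) (x : E) (ω : Ω) : ℝ :=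
  if h : Q.Nonempty then Q.sup' h (fun p => (p.toFun x : Ω → ℝ) ω) else 0

variable (P 𝕜)

/-- `y` is the concatenation `∑ₙ I_{Aₙ} xₙ`. -/
def IsConcat (A : ℕ → Set Ω) (hA : IsPart A) (x : ℕ → E) (y : E) : Prop :=
  ∀ n, ind P 𝕜 (A n) (hA.meas n) • y = ind P 𝕜 (A n) (hA.meas n) • x n

variable (E) in
/-- The module `E` is `σ`-stable. -/
def ModStable : Prop :=
  ∀ (A : ℕ → Set Ω) (hA : IsPart A) (x : ℕ → E), ∃ y : E, IsConcat P 𝕜 A hA x y

/-- The subset `G` of `E` is `σ`-stable. -/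
def SetStable (G : Set E) : Prop :=
  ∀ (A : ℕ → Set Ω) (hA : IsPart A) (x : ℕ → E) (y : E), (∀ n, x n ∈ G) →
    IsConcat P 𝕜 A hA x y → y ∈ G

/-- The map `f : G → G` is `σ`-stable. -/
def MapStable (G : Set E) (f : G → G) : Prop :=
  ∀ (A : ℕ → Set Ω) (hA : IsPart A) (x : ℕ → G) (y : G),
    IsConcat P 𝕜 A hA (fun n => (x n : E)) (y : E) →
    IsConcat P 𝕜 A hA (fun n => (f (x n) : E)) (f y : E)

/-- The family `S` of seminorms is `σ`-stable: all `∑ₙ I_{Aₙ} ‖·‖_{Qₙ}` belong to it. -/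
def FamStable (S : Set (LSeminorm P 𝕜 E)) : Prop :=
  ∀ (A : ℕ → Set Ω) (_ : IsPart A) (Q : ℕ → Finset (LSeminorm P 𝕜 E)), (∀ n, (Q n : Set _) ⊆ S) →
    ∃ p ∈ S, ∀ x : E, ∀ᵐ ω ∂P, ∀ n, ω ∈ A n → (p.toFun x : Ω → ℝ) ω = qnorm (Q n) x ω

variable {P 𝕜}

lemma toFun_nonneg (p : LSeminorm P 𝕜 E) (x : E) : ∀ᵐ ω ∂P, 0 ≤ (p.toFun x : Ω → ℝ) ω := by
  have h := p.nonneg' x
  rw [← AEEqFun.coeFn_le] at h
  filter_upwards [h, AEEqFun.coeFn_zero (μ := P) (β := ℝ)] with ω h1 h2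
  rw [h2] at h1
  exact h1

lemma toFun_smul (p : LSeminorm P 𝕜 E) (ξ : Ω →ₘ[P] 𝕜) (x : E) :
    ∀ᵐ ω ∂P, (p.toFun (ξ • x) : Ω → ℝ) ω = ‖(ξ : Ω → 𝕜) ω‖ * (p.toFun x : Ω → ℝ) ω := by
  rw [p.smul']
  filter_upwards [AEEqFun.coeFn_mul (absL P 𝕜 ξ) (p.toFun x),
    AEEqFun.coeFn_comp (fun z : 𝕜 => ‖z‖) continuous_norm ξ] with ω h1 h2
  rw [h1, Pi.mul_apply]
  congr 1

lemma toFun_zero (p : LSeminorm P 𝕜 E) : ∀ᵐ ω ∂P, (p.toFun (0 : E) : Ω → ℝ) ω = 0 := by
  have h := toFun_smul p (0 : Ω →ₘ[P] 𝕜) (0 : E)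
  rw [zero_smul] at h
  filter_upwards [h, AEEqFun.coeFn_zero (μ := P) (β := 𝕜)] with ω h1 h2
  rw [h1, h2]
  simp

lemma toFun_neg (p : LSeminorm P 𝕜 E) (x : E) :
    ∀ᵐ ω ∂P, (p.toFun (-x) : Ω → ℝ) ω = (p.toFun x : Ω → ℝ) ω := by
  have h := toFun_smul p (-1 : Ω →ₘ[P] 𝕜) x
  rw [neg_one_smul] at h
  filter_upwards [h, AEEqFun.coeFn_neg (1 : Ω →ₘ[P] 𝕜), AEEqFun.coeFn_one (μ := P) (β := 𝕜)]
    with ω h1 h2 h3
  rw [h1, h2, Pi.neg_apply, h3]
  simp

lemma toFun_add (p : LSeminorm P 𝕜 E) (x y : E) :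
    ∀ᵐ ω ∂P, (p.toFun (x + y) : Ω → ℝ) ω ≤ (p.toFun x : Ω → ℝ) ω + (p.toFun y : Ω → ℝ) ω := by
  have h := p.add' x y
  rw [← AEEqFun.coeFn_le] at h
  filter_upwards [h, AEEqFun.coeFn_add (p.toFun x) (p.toFun y)] with ω h1 h2
  rw [h2] at h1
  exact h1

lemma qnorm_lt_iff (Q : Finset (LSeminorm P 𝕜 E)) (x : E) (ω : Ω) {e : ℝ} (he : 0 < e) :
    qnorm Q x ω < e ↔ ∀ p ∈ Q, (p.toFun x : Ω → ℝ) ω < e := by
  unfold qnorm
  split_ifs with h
  · exact Finset.sup'_lt_iff h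
  · rw [Finset.not_nonempty_iff_eq_empty] at h
    subst h
    simp [he]

lemma measurable_toFun (p : LSeminorm P 𝕜 E) (x : E) : Measurable (p.toFun x : Ω → ℝ) :=
  (AEEqFun.stronglyMeasurable _).measurable

lemma meas_qnorm_lt (Q : Finset (LSeminorm P 𝕜 E)) (x : E) {e : ℝ} (he : 0 < e) :
    MeasurableSet {ω | qnorm Q x ω < e} := by
  have : {ω | qnorm Q x ω < e} = ⋂ p ∈ Q, {ω | (p.toFun x : Ω → ℝ) ω < e} := by
    ext ω
    simp [qnorm_lt_iff Q x ω he]
  rw [this]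
  exact Finset.measurableSet_biInter Q fun p _ =>
    measurableSet_lt (measurable_toFun p x) measurable_const

lemma qnorm_mono {Q Q' : Finset (LSeminorm P 𝕜 E)} (h : Q ⊆ Q') (x : E) (ω : Ω) {e : ℝ}
    (he : 0 < e) (hx : qnorm Q' x ω < e) : qnorm Q x ω < e := by
  rw [qnorm_lt_iff _ _ _ he] at hx ⊢
  exact fun p hp => hx p (h hp)

lemma ae_qnorm_zero (Q : Finset (LSeminorm P 𝕜 E)) :
    ∀ᵐ ω ∂P, ∀ e : ℝ, 0 < e → qnorm Q (0 : E) ω < e := by
  have h : ∀ᵐ ω ∂P, ∀ p ∈ Q, (p.toFun (0 : E) : Ω → ℝ) ω = 0 := by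
    rw [Filter.eventually_all_finset]
    exact fun p _ => toFun_zero p
  filter_upwards [h] with ω hω e he
  rw [qnorm_lt_iff _ _ _ he]
  intro p hp
  rw [hω p hp]
  exact he

lemma ae_qnorm_neg (Q : Finset (LSeminorm P 𝕜 E)) (x : E) :
    ∀ᵐ ω ∂P, ∀ e : ℝ, 0 < e → qnorm Q x ω < e → qnorm Q (-x) ω < e := by
  have h : ∀ᵐ ω ∂P, ∀ p ∈ Q, (p.toFun (-x) : Ω → ℝ) ω = (p.toFun x : Ω → ℝ) ω := by
    rw [Filter.eventually_all_finset]
    exact fun p _ => toFun_neg p x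
  filter_upwards [h] with ω hω e he hx
  rw [qnorm_lt_iff _ _ _ he] at hx ⊢
  intro p hp
  rw [hω p hp]
  exact hx p hp

lemma ae_qnorm_add (Q : Finset (LSeminorm P 𝕜 E)) (x y : E) :
    ∀ᵐ ω ∂P, ∀ e : ℝ, 0 < e → qnorm Q x ω < e / 2 → qnorm Q y ω < e / 2 →
      qnorm Q (x + y) ω < e := by
  have h : ∀ᵐ ω ∂P, ∀ p ∈ Q, (p.toFun (x + y) : Ω → ℝ) ω ≤
      (p.toFun x : Ω → ℝ) ω + (p.toFun y : Ω → ℝ) ω := by
    rw [Filter.eventually_all_finset]
    exact fun p _ => toFun_add p x y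
  filter_upwards [h] with ω hω e he hx hy
  rw [qnorm_lt_iff _ _ _ (by linarith)] at hx hy
  rw [qnorm_lt_iff _ _ _ he]
  intro p hp
  have h1 := hω p hp
  have h2 := hx p hp
  have h3 := hy p hp
  linarith

/-- The basic neighbourhoods of `0` for the topology `T_c`. -/
def cNhd (Q : Finset (LSeminorm P 𝕜 E)) (e : Ω →ₘ[P] ℝ) : Set E :=
  {x | ∀ᵐ ω ∂P, qnorm Q x ω < (e : Ω → ℝ) ω}

/-- The basic neighbourhoods of `0` for the topology `T_{ε,λ}`. -/
def elNhd (Q : Finset (LSeminorm P 𝕜 E)) (e l : ℝ) : Set E :=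
  {x | 1 - l < P.real {ω | qnorm Q x ω < e}}

/-- The filter basis of the topology `T_c` defined by the family `S`. -/
@[reducible] noncomputable def cBasis (S : Set (LSeminorm P 𝕜 E)) : AddGroupFilterBasis E where
  sets := {U | ∃ Q : Finset (LSeminorm P 𝕜 E), (Q : Set _) ⊆ S ∧ ∃ e : Ω →ₘ[P] ℝ,
    (∀ᵐ ω ∂P, 0 < (e : Ω → ℝ) ω) ∧ U = cNhd Q e}
  nonempty := ⟨_, ∅, by simp, 1, by
    filter_upwards [AEEqFun.coeFn_one (μ := P) (β := ℝ)] with ω h
    rw [h]; simp, rfl⟩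
  inter_sets := by
    classical
    rintro _ _ ⟨Q, hQ, e, he, rfl⟩ ⟨Q', hQ', e', he', rfl⟩
    refine ⟨_, ⟨Q ∪ Q', by simp [hQ, hQ'], e ⊓ e', ?_, rfl⟩, ?_⟩
    · filter_upwards [he, he', AEEqFun.coeFn_inf e e'] with ω h1 h2 h3
      rw [h3]; exact lt_min h1 h2
    · intro x hx
      constructor
      · show ∀ᵐ ω ∂P, _
        filter_upwards [he, he', AEEqFun.coeFn_inf e e', hx] with ω h1 h2 h3 h4
        rw [h3] at h4
        exact qnorm_mono Finset.subset_union_left x ω h1 (h4.trans_le (min_le_left _ _))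
      · show ∀ᵐ ω ∂P, _
        filter_upwards [he, he', AEEqFun.coeFn_inf e e', hx] with ω h1 h2 h3 h4
        rw [h3] at h4
        exact qnorm_mono Finset.subset_union_right x ω h2 (h4.trans_le (min_le_right _ _))
  zero' := by
    rintro _ ⟨Q, hQ, e, he, rfl⟩
    show ∀ᵐ ω ∂P, _
    filter_upwards [he, ae_qnorm_zero Q] with ω h1 h2
    exact h2 _ h1
  add' := by
    rintro _ ⟨Q, hQ, e, he, rfl⟩
    have hhalf : ∀ᵐ ω ∂P, (((1 / 2 : ℝ) • e : Ω →ₘ[P] ℝ) : Ω → ℝ) ω = (e : Ω → ℝ) ω / 2 := by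
      filter_upwards [AEEqFun.coeFn_smul (1 / 2 : ℝ) e] with ω h
      rw [h, Pi.smul_apply, smul_eq_mul]; ring
    refine ⟨_, ⟨Q, hQ, (1 / 2 : ℝ) • e, ?_, rfl⟩, ?_⟩
    · filter_upwards [he, hhalf] with ω h1 h2
      rw [h2]; linarith
    · rintro _ ⟨x, hx, y, hy, rfl⟩
      show ∀ᵐ ω ∂P, _
      filter_upwards [he, hhalf, hx, hy, ae_qnorm_add Q x y] with ω h1 h2 h3 h4 h5
      rw [h2] at h3 h4
      exact h5 _ h1 h3 h4
  neg' := by
    rintro _ ⟨Q, hQ, e, he, rfl⟩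
    refine ⟨_, ⟨Q, hQ, e, he, rfl⟩, ?_⟩
    intro x hx
    show ∀ᵐ ω ∂P, _
    filter_upwards [he, hx, ae_qnorm_neg Q x] with ω h1 h2 h3
    exact h3 _ h1 h2
  conj' := by
    rintro x₀ _ ⟨Q, hQ, e, he, rfl⟩
    refine ⟨_, ⟨Q, hQ, e, he, rfl⟩, ?_⟩
    intro x hx
    show x₀ + x + -x₀ ∈ cNhd Q e
    have : x₀ + x + -x₀ = x := by abel
    rw [this]; exact hx

variable [IsProbabilityMeasure P]

lemma elNhd_mono {Q Q' : Finset (LSeminorm P 𝕜 E)} {e l e' l' : ℝ} (hQ : Q ⊆ Q') (he' : 0 < e')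
    (he : e' ≤ e) (hl : l' ≤ l) : elNhd Q' e' l' ⊆ elNhd Q e l := by
  intro x hx
  have hx' : 1 - l' < P.real {ω | qnorm Q' x ω < e'} := hx
  show 1 - l < P.real {ω | qnorm Q x ω < e}
  have h1 : P.real {ω | qnorm Q' x ω < e'} ≤ P.real {ω | qnorm Q x ω < e} := by
    refine measureReal_mono ?_
    intro ω hω
    exact (qnorm_mono hQ x ω he' hω).trans_le he
  linarith

lemma mem_elNhd_of_ae {Q : Finset (LSeminorm P 𝕜 E)} {e l : ℝ} (hl : 0 < l) {x : E}
    (hx : ∀ᵐ ω ∂P, qnorm Q x ω < e) : x ∈ elNhd Q e l := by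
  show 1 - l < P.real {ω | qnorm Q x ω < e}
  have h1 : P.real {ω | qnorm Q x ω < e} = 1 := by
    have h2 : P {ω | qnorm Q x ω < e} = P univ := measure_congr (eventuallyEq_univ.mpr hx)
    rw [measureReal_def, h2]
    simp
  rw [h1]; linarith

/-- The filter basis of the topology `T_{ε,λ}` defined by the family `S`. -/
@[reducible] noncomputable def elBasis (S : Set (LSeminorm P 𝕜 E)) : AddGroupFilterBasis E where
  sets := {U | ∃ Q : Finset (LSeminorm P 𝕜 E), (Q : Set _) ⊆ S ∧ ∃ e l : ℝ,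
    0 < e ∧ 0 < l ∧ l < 1 ∧ U = elNhd Q e l}
  nonempty := ⟨_, ∅, by simp, 1, 1 / 2, by norm_num, by norm_num, by norm_num, rfl⟩
  inter_sets := by
    classical
    rintro _ _ ⟨Q, hQ, e, l, he, hl, hl1, rfl⟩ ⟨Q', hQ', e', l', he', hl', hl1', rfl⟩
    refine ⟨_, ⟨Q ∪ Q', by simp [hQ, hQ'], min e e', min l l', lt_min he he', lt_min hl hl',
      (min_le_left _ _).trans_lt hl1, rfl⟩, ?_⟩
    refine subset_inter ?_ ?_
    · exact elNhd_mono Finset.subset_union_left (lt_min he he') (min_le_left _ _)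
        (min_le_left _ _)
    · exact elNhd_mono Finset.subset_union_right (lt_min he he') (min_le_right _ _)
        (min_le_right _ _)
  zero' := by
    rintro _ ⟨Q, hQ, e, l, he, hl, hl1, rfl⟩
    apply mem_elNhd_of_ae hl
    filter_upwards [ae_qnorm_zero Q] with ω h
    exact h _ he
  add' := by
    rintro _ ⟨Q, hQ, e, l, he, hl, hl1, rfl⟩
    refine ⟨_, ⟨Q, hQ, e / 2, l / 2, by linarith, by linarith, by linarith, rfl⟩, ?_⟩
    rintro _ ⟨x, hx, y, hy, rfl⟩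
    have hx' : 1 - l / 2 < P.real {ω | qnorm Q x ω < e / 2} := hx
    have hy' : 1 - l / 2 < P.real {ω | qnorm Q y ω < e / 2} := hy
    show 1 - l < P.real {ω | qnorm Q (x + y) ω < e}
    have hmx := meas_qnorm_lt Q x (e := e / 2) (by linarith)
    have hmy := meas_qnorm_lt Q y (e := e / 2) (by linarith)
    have h1 : P.real ({ω | qnorm Q x ω < e / 2} ∩ {ω | qnorm Q y ω < e / 2}) ≤
        P.real {ω | qnorm Q (x + y) ω < e} := by
      refine ENNReal.toReal_mono (measure_ne_top _ _) (measure_mono_ae ?_)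
      filter_upwards [ae_qnorm_add Q x y] with ω h1 h2
      exact h1 _ he h2.1 h2.2
    have h2 := measureReal_union_add_inter (μ := P) (s := {ω | qnorm Q x ω < e / 2}) hmy
    have h3 : P.real ({ω | qnorm Q x ω < e / 2} ∪ {ω | qnorm Q y ω < e / 2}) ≤ 1 :=
      measureReal_le_one
    linarith
  neg' := by
    rintro _ ⟨Q, hQ, e, l, he, hl, hl1, rfl⟩
    refine ⟨_, ⟨Q, hQ, e, l, he, hl, hl1, rfl⟩, ?_⟩
    intro x hx
    have hx' : 1 - l < P.real {ω | qnorm Q x ω < e} := hx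
    show 1 - l < P.real {ω | qnorm Q (-x) ω < e}
    have h1 : P.real {ω | qnorm Q x ω < e} ≤ P.real {ω | qnorm Q (-x) ω < e} := by
      refine ENNReal.toReal_mono (measure_ne_top _ _) (measure_mono_ae ?_)
      filter_upwards [ae_qnorm_neg Q x] with ω h1 h2
      exact h1 _ he h2
    linarith
  conj' := by
    rintro x₀ _ ⟨Q, hQ, e, l, he, hl, hl1, rfl⟩
    refine ⟨_, ⟨Q, hQ, e, l, he, hl, hl1, rfl⟩, ?_⟩
    intro x hx
    show x₀ + x + -x₀ ∈ elNhd Q e l
    have : x₀ + x + -x₀ = x := by abel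
    rw [this]; exact hx

end defs

section exhaustion

variable {Ω : Type*} [MeasurableSpace Ω] (P : Measure Ω) [IsProbabilityMeasure P]

/-- Exhaustion: a family of measurable sets, directed up to null sets and of measure at most
`c`, is contained up to null sets in a measurable set of measure at most `c`. -/
lemma exists_cover (D : Set (Set Ω)) (hne : D.Nonempty) (c : ENNReal)
    (hdir : ∀ s ∈ D, ∀ t ∈ D, ∃ u ∈ D, P ((s ∪ t) \ u) = 0) (hc : ∀ s ∈ D, P s ≤ c)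
    (hm : ∀ s ∈ D, MeasurableSet s) :
    ∃ A : Set Ω, MeasurableSet A ∧ P A ≤ c ∧ ∀ s ∈ D, P (s \ A) = 0 := by
  classical
  set a : ENNReal := ⨆ s ∈ D, P s with ha
  have hac : a ≤ c := iSup₂_le hc
  have hale : ∀ s ∈ D, P s ≤ a := fun s hs => le_iSup₂ (f := fun s (_ : s ∈ D) => P s) s hs
  have hafin : a ≠ ⊤ := by
    have : a ≤ 1 := iSup₂_le fun s _ => prob_le_one
    exact (this.trans_lt ENNReal.one_lt_top).ne
  -- a maximising sequence
  have hseq : ∀ n : ℕ, ∃ s ∈ D, a ≤ P s + (n + 1 : ENNReal)⁻¹ := by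
    intro n
    have hpos : (n + 1 : ENNReal)⁻¹ ≠ 0 := by
      apply ENNReal.inv_ne_zero.mpr
      exact ENNReal.add_ne_top.mpr ⟨ENNReal.natCast_ne_top n, ENNReal.one_ne_top⟩
    by_cases h0 : a = 0
    · obtain ⟨s, hs⟩ := hne
      exact ⟨s, hs, by rw [h0]; exact zero_le⟩
    · have hlt : a - (n + 1 : ENNReal)⁻¹ < a := ENNReal.sub_lt_self hafin h0 hpos
      rw [ha] at hlt
      rw [lt_iSup_iff] at hlt
      obtain ⟨s, hs⟩ := hlt
      rw [lt_iSup_iff] at hs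
      obtain ⟨hsD, hs⟩ := hs
      refine ⟨s, hsD, ?_⟩
      exact tsub_le_iff_right.mp hs.le
  choose t htD ht using hseq
  -- finite unions
  have hfin : ∀ s ∈ D, ∀ n : ℕ, ∃ u ∈ D, P ((s ∪ ⋃ i ∈ Finset.range n, t i) \ u) = 0 := by
    intro s hs n
    induction n with
    | zero => exact ⟨s, hs, by simp⟩
    | succ n ih =>
      obtain ⟨u, hu, hu0⟩ := ih
      obtain ⟨v, hv, hv0⟩ := hdir u hu (t n) (htD n)
      refine ⟨v, hv, ?_⟩
      refine measure_mono_null ?_ (measure_union_null hu0 hv0)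
      rintro ω ⟨hω, hωv⟩
      by_cases hωu : ω ∈ u
      · exact Or.inr ⟨Or.inl hωu, hωv⟩
      · rcases hω with h | h
        · exact Or.inl ⟨Or.inl h, hωu⟩
        · simp only [mem_iUnion, Finset.mem_range] at h
          obtain ⟨i, hi, hit⟩ := h
          rcases Nat.lt_succ_iff_lt_or_eq.mp hi with h1 | h1
          · left
            refine ⟨Or.inr ?_, hωu⟩
            simp only [mem_iUnion, Finset.mem_range]
            exact ⟨i, h1, hit⟩
          · subst h1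
            exact Or.inr ⟨Or.inr hit, hωv⟩
  have hbound : ∀ s ∈ D, P (s ∪ ⋃ i, t i) ≤ a := by
    intro s hs
    have hmono : Monotone (fun n : ℕ => s ∪ ⋃ i ∈ Finset.range n, t i) := by
      intro m n hmn
      refine union_subset_union_right s ?_
      refine biUnion_subset_biUnion_left ?_
      intro i hi
      have hi' : i < m := by simpa using hi
      have : i < n := lt_of_lt_of_le hi' hmn
      simpa using this
    have heq : s ∪ ⋃ i, t i = ⋃ n : ℕ, (s ∪ ⋃ i ∈ Finset.range n, t i) := by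
      ext ω
      simp only [mem_union, mem_iUnion, Finset.mem_range]
      constructor
      · rintro (h | ⟨i, hi⟩)
        · exact ⟨0, Or.inl h⟩
        · exact ⟨i + 1, Or.inr ⟨i, by omega, hi⟩⟩
      · rintro ⟨n, h | ⟨i, _, hi⟩⟩
        · exact Or.inl h
        · exact Or.inr ⟨i, hi⟩
    rw [heq, hmono.measure_iUnion]
    refine iSup_le fun n => ?_
    obtain ⟨u, hu, hu0⟩ := hfin s hs n
    calc P (s ∪ ⋃ i ∈ Finset.range n, t i) ≤ P (u ∪ ((s ∪ ⋃ i ∈ Finset.range n, t i) \ u)) := by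
          refine measure_mono ?_
          intro ω hω
          by_cases h : ω ∈ u
          · exact Or.inl h
          · exact Or.inr ⟨hω, h⟩
      _ ≤ P u + P ((s ∪ ⋃ i ∈ Finset.range n, t i) \ u) := measure_union_le _ _
      _ ≤ a := by rw [hu0, add_zero]; exact hale u hu
  have hAm : MeasurableSet (⋃ i, t i) := MeasurableSet.iUnion fun i => hm _ (htD i)
  have hAa : a ≤ P (⋃ i, t i) := by
    refine ENNReal.le_of_forall_pos_le_add fun ε hε _ => ?_
    obtain ⟨n, hn⟩ := ENNReal.exists_inv_nat_lt (a := (ε : ENNReal)) (by exact_mod_cast hε.ne')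
    have h1 := ht n
    have h2 : (n + 1 : ENNReal)⁻¹ ≤ (n : ENNReal)⁻¹ := by
      apply ENNReal.inv_le_inv.mpr
      exact le_self_add
    calc a ≤ P (t n) + (n + 1 : ENNReal)⁻¹ := h1
      _ ≤ P (⋃ i, t i) + ε :=
        add_le_add (measure_mono (subset_iUnion t n)) (h2.trans hn.le)
  refine ⟨⋃ i, t i, hAm, ?_, ?_⟩
  · obtain ⟨s, hs⟩ := hne
    exact ((measure_mono subset_union_right).trans (hbound s hs)).trans hac
  · intro s hs
    have h1 : P (s \ ⋃ i, t i) + P (⋃ i, t i) = P (s ∪ ⋃ i, t i) := by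
      rw [← measure_union disjoint_sdiff_self_left hAm, sdiff_union_self]
    have h2 := hbound s hs
    rw [← h1] at h2
    have h3 : P (s \ ⋃ i, t i) + P (⋃ i, t i) ≤ 0 + P (⋃ i, t i) := by
      rw [zero_add]; exact h2.trans hAa
    have hfinA : P (⋃ i, t i) ≠ ⊤ := measure_ne_top _ _
    have h4 := (ENNReal.add_le_add_iff_right hfinA).mp h3
    exact le_antisymm h4 zero_le

end exhaustion

section topo

/-- Continuity for the topology of a filter basis, on a subset, in epsilon-delta form. -/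
lemma cont_iff {E : Type*} [AddCommGroup E] (B : AddGroupFilterBasis E) (G : Set E) (f : G → G) :
    (@Continuous G G (TopologicalSpace.induced (fun y : G => (y : E)) B.topology)
      (TopologicalSpace.induced (fun y : G => (y : E)) B.topology) f) ↔
    ∀ x : G, ∀ V ∈ B, ∃ U ∈ B, ∀ y : G, (y : E) - x ∈ U → (f y : E) - f x ∈ V := by
  let tE : TopologicalSpace E := B.topology
  let tG : TopologicalSpace G := TopologicalSpace.induced (fun y : G => (y : E)) B.topology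
  have hbasis : ∀ x : G, (𝓝 x).HasBasis (fun V : Set E => V ∈ B)
      (fun V => {y : G | (y : E) - x ∈ V}) := by
    intro x
    have h1 := (B.nhds_hasBasis (x : E)).comap (fun y : G => (y : E))
    have h2 : 𝓝 x = comap (fun y : G => (y : E)) (𝓝 (x : E)) := nhds_induced _ _
    rw [h2]
    have h3 : (fun V : Set E => (fun y : G => (y : E)) ⁻¹' ((fun y => (x : E) + y) '' V)) =
        (fun V => {y : G | (y : E) - x ∈ V}) := by
      funext V
      ext y
      constructor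
      · rintro ⟨v, hv, hvy⟩
        show (y : E) - x ∈ V
        simp only at hvy
        rw [← hvy, add_sub_cancel_left]
        exact hv
      · intro hy
        exact ⟨(y : E) - x, hy, by simp⟩
    rw [← h3]
    exact h1
  rw [continuous_iff_continuousAt]
  refine forall_congr' fun x => ?_
  exact (hbasis x).tendsto_iff (hbasis (f x))

end topo

section main

variable {Ω : Type*} [MeasurableSpace Ω] {P : Measure Ω} [IsProbabilityMeasure P]
  {𝕜 : Type*} [RCLike 𝕜] {E : Type*} [AddCommGroup E] [Module (Ω →ₘ[P] 𝕜) E]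

omit [IsProbabilityMeasure P] in
lemma local_eq {A : Set Ω} (hA : MeasurableSet A) {u v : E}
    (h : ind P 𝕜 A hA • u = ind P 𝕜 A hA • v) (p : LSeminorm P 𝕜 E) (z : E) :
    ∀ᵐ ω ∂P, ω ∈ A → (p.toFun (u - z) : Ω → ℝ) ω = (p.toFun (v - z) : Ω → ℝ) ω := by
  have h1 : ind P 𝕜 A hA • (u - z) = ind P 𝕜 A hA • (v - z) := by
    rw [smul_sub, smul_sub, h]
  have h2 := toFun_smul p (ind P 𝕜 A hA) (u - z)
  rw [h1] at h2
  have h3 := toFun_smul p (ind P 𝕜 A hA) (v - z)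
  have h4 : ∀ᵐ ω ∂P, (ind P 𝕜 A hA : Ω → 𝕜) ω = A.indicator (fun _ => (1 : 𝕜)) ω :=
    AEEqFun.coeFn_mk _ _
  filter_upwards [h2, h3, h4] with ω h5 h6 h7 hω
  rw [h5, h7, indicator_of_mem hω] at h6
  simpa using h6

omit [IsProbabilityMeasure P] in
lemma qnorm_local {A : Set Ω} (hA : MeasurableSet A) {u v : E}
    (h : ind P 𝕜 A hA • u = ind P 𝕜 A hA • v) (Q : Finset (LSeminorm P 𝕜 E)) (z : E) :
    ∀ᵐ ω ∂P, ω ∈ A → qnorm Q (u - z) ω = qnorm Q (v - z) ω := by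
  have h1 : ∀ᵐ ω ∂P, ∀ p ∈ Q, ω ∈ A →
      (p.toFun (u - z) : Ω → ℝ) ω = (p.toFun (v - z) : Ω → ℝ) ω := by
    rw [Filter.eventually_all_finset]
    exact fun p _ => local_eq hA h p z
  filter_upwards [h1] with ω hω hωA
  unfold qnorm
  split_ifs with hne
  · exact Finset.sup'_congr hne rfl fun p hp => hω p hp hωA
  · rfl

lemma isPart_fiber {N : Ω → ℕ} (hN : Measurable N) : IsPart (fun n => N ⁻¹' {n}) where
  meas n := hN (measurableSet_singleton n)
  disj := by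
    intro i j hij
    refine Set.disjoint_left.mpr ?_
    rintro ω h1 h2
    exact hij (h1.symm.trans h2)
  union := by
    ext ω
    simp

variable {S : Set (LSeminorm P 𝕜 E)} {G : Set E} {f : G → G}

omit [IsProbabilityMeasure P] in
/-- Concatenation along a measurable function with values in `ℕ`. -/
lemma exists_concat (hE : ModStable P 𝕜 E) (hG : SetStable P 𝕜 G) (hf : MapStable P 𝕜 G f)
    {N : Ω → ℕ} (hN : Measurable N) (x : ℕ → G) :
    ∃ y : G, (∀ (R : Finset (LSeminorm P 𝕜 E)) (z : E),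
        ∀ᵐ ω ∂P, qnorm R ((y : E) - z) ω = qnorm R ((x (N ω) : E) - z) ω) ∧
      (∀ (R : Finset (LSeminorm P 𝕜 E)) (z : E),
        ∀ᵐ ω ∂P, qnorm R ((f y : E) - z) ω = qnorm R ((f (x (N ω)) : E) - z) ω) := by
  obtain ⟨y, hy⟩ := hE _ (isPart_fiber hN) (fun n => (x n : E))
  have hyG : y ∈ G := hG _ (isPart_fiber hN) (fun n => (x n : E)) y (fun n => (x n).2) hy
  have hfy := hf _ (isPart_fiber hN) x ⟨y, hyG⟩ hy
  refine ⟨⟨y, hyG⟩, fun R z => ?_, fun R z => ?_⟩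
  · have h : ∀ᵐ ω ∂P, ∀ n, ω ∈ N ⁻¹' {n} → qnorm R (y - z) ω = qnorm R ((x n : E) - z) ω :=
      ae_all_iff.mpr fun n => qnorm_local _ (hy n) R z
    filter_upwards [h] with ω hω
    exact hω (N ω) rfl
  · have h : ∀ᵐ ω ∂P, ∀ n, ω ∈ N ⁻¹' {n} →
        qnorm R ((f ⟨y, hyG⟩ : E) - z) ω = qnorm R ((f (x n) : E) - z) ω :=
      ae_all_iff.mpr fun n => qnorm_local _ (hfy n) R z
    filter_upwards [h] with ω hω
    exact hω (N ω) rfl

omit [IsProbabilityMeasure P] in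
/-- The gluing step. -/
lemma glue (hE : ModStable P 𝕜 E) (hG : SetStable P 𝕜 G) (hf : MapStable P 𝕜 G f)
    (hS : FamStable P 𝕜 S) (x : G) {N : Ω → ℕ} (hN : Measurable N)
    (Q : ℕ → Finset (LSeminorm P 𝕜 E)) (hQ : ∀ n, (Q n : Set _) ⊆ S)
    (d : ℕ → Ω →ₘ[P] ℝ) (hd : ∀ n, ∀ᵐ ω ∂P, 0 < (d n : Ω → ℝ) ω)
    (R : Finset (LSeminorm P 𝕜 E)) (e : Ω → ℝ)
    (hgood : ∀ n, ∀ y : G, (y : E) - x ∈ cNhd (Q n) (d n) →
      ∀ᵐ ω ∂P, N ω = n → qnorm R ((f y : E) - f x) ω < e ω) :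
    ∃ p ∈ S, ∃ δ : Ω →ₘ[P] ℝ, (∀ᵐ ω ∂P, 0 < (δ : Ω → ℝ) ω) ∧
      ∀ y : G, (y : E) - x ∈ cNhd {p} δ → ∀ᵐ ω ∂P, qnorm R ((f y : E) - f x) ω < e ω := by
  obtain ⟨p, hpS, hp⟩ := hS _ (isPart_fiber hN) Q hQ
  have hmeas : Measurable (fun ω => (d (N ω) : Ω → ℝ) ω) := by
    have h1 : Measurable (fun q : ℕ × Ω => (d q.1 : Ω → ℝ) q.2) :=
      measurable_from_prod_countable_right fun n => (AEEqFun.stronglyMeasurable (d n)).measurable
    exact h1.comp (hN.prodMk measurable_id)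
  have hδ : ∀ᵐ ω ∂P, (AEEqFun.mk (fun ω => (d (N ω) : Ω → ℝ) ω) hmeas.aestronglyMeasurable :
      Ω → ℝ) ω = (d (N ω) : Ω → ℝ) ω := AEEqFun.coeFn_mk _ _
  have hdall : ∀ᵐ ω ∂P, ∀ n, 0 < (d n : Ω → ℝ) ω := ae_all_iff.mpr hd
  refine ⟨p, hpS, AEEqFun.mk (fun ω => (d (N ω) : Ω → ℝ) ω) hmeas.aestronglyMeasurable, ?_, ?_⟩
  · filter_upwards [hδ, hdall] with ω h1 h2
    rw [h1]; exact h2 _
  · intro y hy
    have hy' : ∀ᵐ ω ∂P, qnorm (Q (N ω)) ((y : E) - x) ω < (d (N ω) : Ω → ℝ) ω := by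
      filter_upwards [hy, hδ, hp ((y : E) - x), hdall] with ω h1 h2 h3 h4
      rw [h2] at h1
      rw [qnorm_lt_iff _ _ _ (h4 _)] at h1
      rw [← h3 (N ω) rfl]
      exact h1 p (Finset.mem_singleton_self p)
    have hall : ∀ n, ∀ᵐ ω ∂P, N ω = n → qnorm R ((f y : E) - f x) ω < e ω := by
      intro n
      obtain ⟨z, hz1, hz2⟩ := exists_concat hE hG hf hN (fun k => if k = n then y else x)
      have hzx : (z : E) - x ∈ cNhd (Q n) (d n) := by
        show ∀ᵐ ω ∂P, _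
        filter_upwards [hz1 (Q n) x, hy', ae_qnorm_zero (P := P) (Q n), hdall] with ω h1 h2 h3 h4
        rw [h1]
        by_cases hn : N ω = n
        · rw [if_pos hn]
          rw [hn] at h2
          exact h2
        · rw [if_neg hn, sub_self]
          exact h3 _ (h4 n)
      filter_upwards [hgood n z hzx, hz2 R (f x)] with ω h1 h2 hn
      have h3 := h1 hn
      rw [h2, if_pos hn] at h3
      exact h3
    filter_upwards [ae_all_iff.mpr hall] with ω hω
    exact hω (N ω) rfl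

/-- Continuity at `x` for `T_{ε,λ}` gives the conclusion for constant `e`. -/
lemma step1 (hE : ModStable P 𝕜 E) (hG : SetStable P 𝕜 G) (hf : MapStable P 𝕜 G f)
    (hS : FamStable P 𝕜 S) (x : G) (R : Finset (LSeminorm P 𝕜 E)) {e : ℝ} (he : 0 < e)
    (hc : ∀ l : ℝ, 0 < l → l < 1 → ∃ Q : Finset (LSeminorm P 𝕜 E), (Q : Set _) ⊆ S ∧
      ∃ e' l' : ℝ, 0 < e' ∧ 0 < l' ∧ ∀ y : G, (y : E) - x ∈ elNhd Q e' l' →
        (f y : E) - f x ∈ elNhd R e l) :
    ∃ p ∈ S, ∃ δ : Ω →ₘ[P] ℝ, (∀ᵐ ω ∂P, 0 < (δ : Ω → ℝ) ω) ∧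
      ∀ y : G, (y : E) - x ∈ cNhd {p} δ → ∀ᵐ ω ∂P, qnorm R ((f y : E) - f x) ω < e := by
  classical
  have hl : ∀ n : ℕ, (0 : ℝ) < (1 / 2) ^ (n + 1) ∧ ((1 : ℝ) / 2) ^ (n + 1) < 1 := fun n =>
    ⟨by positivity, pow_lt_one₀ (by norm_num) (by norm_num) (by omega)⟩
  choose Q hQ e' l' he' hl' hcon using fun n => hc _ (hl n).1 (hl n).2
  -- the exceptional sets
  have hcov : ∀ n : ℕ, ∃ A : Set Ω, MeasurableSet A ∧
      P A ≤ ENNReal.ofReal ((1 / 2) ^ (n + 1)) ∧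
      ∀ y : G, (∀ᵐ ω ∂P, qnorm (Q n) ((y : E) - x) ω < e' n) →
        P ({ω | ¬ qnorm R ((f y : E) - f x) ω < e} \ A) = 0 := by
    intro n
    let H : Set G := {y | ∀ᵐ ω ∂P, qnorm (Q n) ((y : E) - x) ω < e' n}
    let bad : G → Set Ω := fun y => {ω | ¬ qnorm R ((f y : E) - f x) ω < e}
    have hbadm : ∀ y, MeasurableSet (bad y) := fun y => (meas_qnorm_lt R _ he).compl
    have hxH : x ∈ H := by
      show ∀ᵐ ω ∂P, _
      filter_upwards [ae_qnorm_zero (P := P) (Q n)] with ω h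
      rw [sub_self]; exact h _ (he' n)
    obtain ⟨A, hAm, hAc, hA⟩ := exists_cover P (bad '' H) ⟨_, x, hxH, rfl⟩
      (ENNReal.ofReal ((1 / 2) ^ (n + 1))) (by
        rintro _ ⟨y₁, hy₁, rfl⟩ _ ⟨y₂, hy₂, rfl⟩
        let N : Ω → ℕ := fun ω => if ω ∈ bad y₁ then 0 else 1
        have hN : Measurable N := Measurable.ite (hbadm y₁) measurable_const measurable_const
        obtain ⟨y, hy, hfy⟩ := exists_concat hE hG hf hN (fun k => if k = 0 then y₁ else y₂)
        refine ⟨_, ⟨y, ?_, rfl⟩, ?_⟩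
        · show ∀ᵐ ω ∂P, _
          filter_upwards [hy (Q n) x, hy₁, hy₂] with ω h1 h2 h3
          rw [h1]
          by_cases hω : ω ∈ bad y₁
          · have : N ω = 0 := if_pos hω
            rw [this, if_pos rfl]; exact h2
          · have : N ω = 1 := if_neg hω
            rw [this, if_neg one_ne_zero]; exact h3
        · have hae : ∀ᵐ ω ∂P, ω ∉ (bad y₁ ∪ bad y₂) \ bad y := by
            filter_upwards [hfy R (f x)] with ω h1
            rintro ⟨h2, h3⟩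
            apply h3
            show ¬ qnorm R ((f y : E) - f x) ω < e
            rw [h1]
            by_cases hω : ω ∈ bad y₁
            · have : N ω = 0 := if_pos hω
              rw [this, if_pos rfl]; exact hω
            · have : N ω = 1 := if_neg hω
              rw [this, if_neg one_ne_zero]
              rcases h2 with h2 | h2
              · exact (hω h2).elim
              · exact h2
          exact measure_eq_zero_iff_ae_notMem.mpr hae)
      (by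
        rintro _ ⟨y, hy, rfl⟩
        have h1 := hcon n y (mem_elNhd_of_ae (hl' n) hy)
        have h2 : 1 - (1 / 2) ^ (n + 1) < P.real {ω | qnorm R ((f y : E) - f x) ω < e} := h1
        have h3 : P.real (bad y) = 1 - P.real {ω | qnorm R ((f y : E) - f x) ω < e} :=
          probReal_compl_eq_one_sub (meas_qnorm_lt R _ he)
        have h4 : P (bad y) = ENNReal.ofReal (P.real (bad y)) := by
          rw [ofReal_measureReal]
        rw [h4]
        exact ENNReal.ofReal_le_ofReal (by linarith))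
      (by
        rintro _ ⟨y, hy, rfl⟩
        exact hbadm y)
    exact ⟨A, hAm, hAc, fun y hy => hA _ ⟨y, hy, rfl⟩⟩
  choose A hAm hAc hA using hcov
  have hZ : P (⋂ n, A n) = 0 := by
    refine le_antisymm ?_ zero_le
    refine ENNReal.le_of_forall_pos_le_add fun ε hε _ => ?_
    obtain ⟨n, hn⟩ := exists_pow_lt_of_lt_one (show (0 : ℝ) < ε from hε)
      (show (1 / 2 : ℝ) < 1 by norm_num)
    have h1 : ((1 / 2 : ℝ)) ^ (n + 1) ≤ ε := by
      refine le_trans ?_ hn.le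
      exact pow_le_pow_of_le_one (by norm_num) (by norm_num) (Nat.le_succ n)
    calc P (⋂ n, A n) ≤ P (A n) := measure_mono (iInter_subset _ n)
      _ ≤ ENNReal.ofReal ((1 / 2) ^ (n + 1)) := hAc n
      _ ≤ ENNReal.ofReal ε := ENNReal.ofReal_le_ofReal h1
      _ = 0 + ε := by rw [zero_add, ENNReal.ofReal_coe_nnreal]
  have hex : ∀ ω, ∃ n, ω ∉ A n \ ⋂ m, A m := by
    intro ω
    by_cases h : ω ∈ ⋂ m, A m
    · exact ⟨0, fun h' => h'.2 h⟩
    · simp only [mem_iInter, not_forall] at h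
      obtain ⟨n, hn⟩ := h
      exact ⟨n, fun h' => hn h'.1⟩
  let N : Ω → ℕ := fun ω => Nat.find (hex ω)
  have hN : Measurable N := by
    refine measurable_find hex fun k => ?_
    have : {ω | ω ∉ A k \ ⋂ m, A m} = (A k \ ⋂ m, A m)ᶜ := rfl
    rw [this]
    exact ((hAm k).diff (MeasurableSet.iInter hAm)).compl
  refine glue hE hG hf hS x hN Q hQ (fun n => AEEqFun.const Ω (e' n)) (fun n => ?_) R
    (fun _ => e) ?_
  · filter_upwards [AEEqFun.coeFn_const Ω (e' n) (μ := P)] with ω h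
    rw [h]; exact he' n
  · intro n y hy
    have hy' : ∀ᵐ ω ∂P, qnorm (Q n) ((y : E) - x) ω < e' n := by
      filter_upwards [hy, AEEqFun.coeFn_const Ω (e' n) (μ := P)] with ω h1 h2
      rw [h2] at h1; exact h1
    have h1 := hA n y hy'
    have h2 : ∀ᵐ ω ∂P, ω ∉ {ω | ¬ qnorm R ((f y : E) - f x) ω < e} \ A n :=
      measure_eq_zero_iff_ae_notMem.mp h1
    have h3 : ∀ᵐ ω ∂P, ω ∉ ⋂ n, A n := measure_eq_zero_iff_ae_notMem.mp hZ
    filter_upwards [h2, h3] with ω h4 h5 h6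
    have h7 : ω ∉ A n \ ⋂ m, A m := by
      have := Nat.find_spec (hex ω)
      rwa [show Nat.find (hex ω) = n from h6] at this
    have h8 : ω ∉ A n := fun h => h7 ⟨h, h5⟩
    by_contra h9
    exact h4 ⟨h9, h8⟩

end main

/-- **`σ`-stable `T_{ε,λ}`-continuous maps are `T_c`-continuous.**
Let `E` be a `σ`-stable module over `L⁰(𝕜)` on a probability space, `S` a `σ`-stable family of
`L⁰`-seminorms on `E`, `G ⊆ E` a `σ`-stable subset and `f : G → G` a `σ`-stable map.  If `f` is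
continuous for the topology `T_{ε,λ}` (relative to `G`), then it is continuous for the topology
`T_c` (relative to `G`). -/
theorem result {Ω : Type*} [MeasurableSpace Ω] (P : Measure Ω) [IsProbabilityMeasure P]
    (𝕜 : Type*) [RCLike 𝕜] (E : Type*) [AddCommGroup E] [Module (Ω →ₘ[P] 𝕜) E]
    (S : Set (LSeminorm P 𝕜 E)) (hE : ModStable P 𝕜 E) (hS : FamStable P 𝕜 S)
    (G : Set E) (hG : SetStable P 𝕜 G) (f : G → G) (hf : MapStable P 𝕜 G f)
    (hcont : @Continuous G G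
      (TopologicalSpace.induced (fun y : G => (y : E)) (elBasis S).topology)
      (TopologicalSpace.induced (fun y : G => (y : E)) (elBasis S).topology) f) :
    @Continuous G G
      (TopologicalSpace.induced (fun y : G => (y : E)) (cBasis S).topology)
      (TopologicalSpace.induced (fun y : G => (y : E)) (cBasis S).topology) f := by
  classical
  rw [cont_iff] at hcont ⊢
  intro x V hV
  obtain ⟨R, hR, e, he, rfl⟩ := hV
  have hstep : ∀ k : ℕ, ∃ p ∈ S, ∃ δ : Ω →ₘ[P] ℝ, (∀ᵐ ω ∂P, 0 < (δ : Ω → ℝ) ω) ∧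
      ∀ y : G, (y : E) - x ∈ cNhd {p} δ →
        ∀ᵐ ω ∂P, qnorm R ((f y : E) - f x) ω < 1 / ((k : ℝ) + 1) := by
    intro k
    refine step1 hE hG hf hS x R (by positivity) fun l hl hl1 => ?_
    obtain ⟨U, ⟨Q, hQ, e', l', he', hl', hl1', rfl⟩, hU⟩ :=
      hcont x (elNhd R (1 / ((k : ℝ) + 1)) l) ⟨R, hR, _, l, by positivity, hl, hl1, rfl⟩
    exact ⟨Q, hQ, e', l', he', hl', hU⟩
  choose p hp δ hδ hpδ using hstep
  have hex : ∀ ω, ∃ k : ℕ, 1 / ((k : ℝ) + 1) ≤ (e : Ω → ℝ) ω ∨ (e : Ω → ℝ) ω ≤ 0 := by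
    intro ω
    by_cases h : (e : Ω → ℝ) ω ≤ 0
    · exact ⟨0, Or.inr h⟩
    · obtain ⟨k, hk⟩ := exists_nat_one_div_lt (not_le.mp h)
      exact ⟨k, Or.inl hk.le⟩
  have hem : Measurable (e : Ω → ℝ) := (AEEqFun.stronglyMeasurable e).measurable
  let N : Ω → ℕ := fun ω => Nat.find (hex ω)
  have hN : Measurable N := by
    refine measurable_find hex fun k => ?_
    exact (measurableSet_le measurable_const hem).union (measurableSet_le hem measurable_const)
  obtain ⟨q, hq, η, hη, hqη⟩ := glue hE hG hf hS x hN (fun k => {p k})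
    (fun k => by simpa using hp k) δ hδ R (e : Ω → ℝ) (by
      intro k y hy
      filter_upwards [hpδ k y hy, he] with ω h1 h2 h3
      have h4 : 1 / ((k : ℝ) + 1) ≤ (e : Ω → ℝ) ω ∨ (e : Ω → ℝ) ω ≤ 0 := by
        have := Nat.find_spec (hex ω)
        rwa [show Nat.find (hex ω) = k from h3] at this
      rcases h4 with h4 | h4
      · exact h1.trans_le h4
      · exact absurd h2 (not_lt.mpr h4))
  exact ⟨cNhd {q} η, ⟨{q}, by simpa using hq, η, hη, rfl⟩, fun y hy => hqη y hy⟩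

end Pool.Agent.Results.MP_6f9abf_an.SigmaStableContinuity
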